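import Pool.Agent.N557.QW.Stm

/-!
# Project QWP (helper557), part RT (helper664): right multiplication by a unitary
-/

set_option autoImplicit false

namespace Pool.Agent.N664.QWP

open scoped InnerProductSpace

noncomputable section

open Pool.Agent.N557.QW

theorem t_rt : S_RT := by
  intro H _ _ _ M ξ hM w hw hw1 hw2
  -- the two linear maps
  let A := M.toStarSubalgebra
  have hA : ∀ x : A, x.1 ∈ M := fun x => x.2
  let e : A →ₗ[ℂ] H :=
    { toFun := fun x => x.1 ξ
      map_add' := fun x y => by simp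
      map_smul' := fun c x => by simp }
  let f : A →ₗ[ℂ] H :=
    { toFun := fun x => x.1 (w ξ)
      map_add' := fun x y => by simp
      map_smul' := fun c x => by simp }
  have he : ∀ x : A, e x = x.1 ξ := fun x => rfl
  have hf : ∀ x : A, f x = x.1 (w ξ) := fun x => rfl
  have hsw : star w ∈ M := star_mem hw
  have hww : ∀ v : H, w ((star w) v) = v := fun v => by
    have := congrArg (fun T : H →L[ℂ] H => T v) hw2
    simpa using this
  have hadj : ∀ (T : H →L[ℂ] H) (u v : H), inner ℂ ((star T) u) v = inner ℂ u (T v) :=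
    fun T u v => by rw [ContinuousLinearMap.star_eq_adjoint, ContinuousLinearMap.adjoint_inner_left]
  have hadj' : ∀ (T : H →L[ℂ] H) (u v : H), inner ℂ (T u) v = inner ℂ u ((star T) v) :=
    fun T u v => by rw [← hadj (star T) u v, star_star]
  -- the norms
  have hnorm : ∀ x : A, ‖f x‖ = ‖e x‖ := by
    intro x
    have h1 : inner ℂ (f x) (f x) = inner ℂ (e x) (e x) := by
      have h2 : star w * (star x.1 * x.1 * w) = star w * (star x.1 * x.1 * w) := rfl
      have hb : star x.1 * x.1 * w ∈ M := mul_mem (mul_mem (star_mem (hA x)) (hA x)) hw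
      have h3 := hM.tracial (star w) hsw (star x.1 * x.1 * w) hb
      have h4 : inner ℂ (f x) (f x) = inner ℂ ξ ((star w) ((star x.1 * x.1 * w) ξ)) := by
        rw [hf, hadj' x.1, hadj' w]
        rfl
      have h5 : inner ℂ (e x) (e x) = inner ℂ ξ ((star x.1 * x.1 * w) ((star w) ξ)) := by
        rw [he, hadj' x.1]
        have : (star x.1 * x.1 * w) ((star w) ξ) = (star x.1) (x.1 (w ((star w) ξ))) := rfl
        rw [this, hww]
      rw [h4, h5, h3]
    have h6 : ‖f x‖ ^ 2 = ‖e x‖ ^ 2 := by
      rw [inner_self_eq_norm_sq_to_K, inner_self_eq_norm_sq_to_K] at h1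
      exact_mod_cast h1
    exact (sq_eq_sq₀ (norm_nonneg _) (norm_nonneg _)).1 h6
  -- the closure of the range of `e`
  let K : Submodule ℂ H := (LinearMap.range e).topologicalClosure
  have hKc : IsClosed (K : Set H) := Submodule.isClosed_topologicalClosure _
  have : CompleteSpace K := hKc.completeSpace_coe
  have heK : ∀ x : A, e x ∈ K := fun x => Submodule.le_topologicalClosure _ ⟨x, rfl⟩
  let e' : A →ₗ[ℂ] K := e.codRestrict K heK
  have hdense : DenseRange e' := by
    intro k
    have hk : (k : H) ∈ closure (Set.range e) := by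
      have := k.2
      rwa [← SetLike.mem_coe, Submodule.topologicalClosure_coe] at this
    rw [mem_closure_iff_seq_limit] at hk ⊢
    obtain ⟨u, hu, hlim⟩ := hk
    choose y hy using hu
    refine ⟨fun n => e' (y n), fun n => ⟨y n, rfl⟩, ?_⟩
    rw [tendsto_subtype_rng]
    refine hlim.congr fun n => ?_
    rw [← hy n]
    rfl
  have hbd : ∃ C : ℝ, ∀ x, ‖f x‖ ≤ C * ‖e' x‖ := ⟨1, fun x => by
    rw [one_mul, hnorm x]
    rfl⟩
  let r0 : K →L[ℂ] H := f.extendOfNorm e'
  have hr0 : ∀ x, r0 (e' x) = f x := fun x => LinearMap.extendOfNorm_eq hdense hbd x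
  let r : H →L[ℂ] H := r0 ∘L K.orthogonalProjectionOnto
  have hrK : ∀ k : K, r (k : H) = r0 k := fun k => by
    show r0 (K.orthogonalProjectionOnto (k : H)) = r0 k
    rw [Submodule.orthogonalProjectionOnto_mem_subspace_eq_self]
  have hre : ∀ x : A, r (x.1 ξ) = x.1 (w ξ) := fun x => by
    have := hrK (e' x)
    rw [hr0] at this
    exact this
  have hrp : ∀ v ∈ Kᗮ, r v = 0 := fun v hv => by
    show r0 (K.orthogonalProjectionOnto v) = 0
    rw [Submodule.orthogonalProjectionOnto_apply_of_mem_orthogonal hv, map_zero]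
  -- induction principle
  have hind : ∀ (S T : H →L[ℂ] H), (∀ x ∈ M, S (x ξ) = T (x ξ)) → (∀ v ∈ Kᗮ, S v = T v) →
      S = T := by
    intro S T h1 h2
    have h3 : ∀ k ∈ K, S k = T k := by
      intro k hk
      have hcl : IsClosed {v : H | S v = T v} := isClosed_eq S.continuous T.continuous
      have hsub : (LinearMap.range e : Set H) ⊆ {v : H | S v = T v} := by
        rintro _ ⟨x, rfl⟩
        exact h1 x.1 (hA x)
      have hk' : k ∈ closure (LinearMap.range e : Set H) := by
        rwa [← Submodule.topologicalClosure_coe, SetLike.mem_coe]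
      exact (closure_minimal hsub hcl) hk'
    ext v
    obtain ⟨a, ha, b, hb, rfl⟩ := Submodule.exists_add_mem_mem_orthogonal (K := K) v
    rw [map_add, map_add, h3 a ha, h2 b hb]
  have hort : ∀ v ∈ Kᗮ, ∀ x ∈ M, inner ℂ (x ξ) v = 0 := by
    intro v hv x hx
    exact (Submodule.mem_orthogonal K v).1 hv _ (heK ⟨x, hx⟩)
  have hinv : ∀ v ∈ Kᗮ, ∀ x ∈ M, x v ∈ Kᗮ := by
    intro v hv x hx
    have h1 : ∀ y ∈ M, inner ℂ (y ξ) (x v) = 0 := by
      intro y hy
      have h2 := hort v hv (star x * y) (mul_mem (star_mem hx) hy)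
      have h3 : (star x * y) ξ = (star x) (y ξ) := rfl
      rw [h3, hadj] at h2
      exact h2
    rw [Submodule.mem_orthogonal]
    intro k hk
    have hcl : IsClosed {u : H | inner ℂ u (x v) = 0} :=
      isClosed_eq (by fun_prop) continuous_const
    have hsub : (LinearMap.range e : Set H) ⊆ {u : H | inner ℂ u (x v) = 0} := by
      rintro _ ⟨y, rfl⟩
      exact h1 y.1 (hA y)
    have hk' : k ∈ closure (LinearMap.range e : Set H) := by
      rwa [← Submodule.topologicalClosure_coe, SetLike.mem_coe]
    exact (closure_minimal hsub hcl) hk'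
  refine ⟨r, ?_, ?_, ?_⟩
  · intro x hx
    refine hind _ _ ?_ ?_
    · intro y hy
      have h1 := hre ⟨y, hy⟩
      have h2 := hre ⟨x * y, mul_mem hx hy⟩
      show x (r (y ξ)) = r (x (y ξ))
      rw [h1]
      exact h2.symm
    · intro v hv
      show x (r v) = r (x v)
      rw [hrp v hv, hrp _ (hinv v hv x hx), map_zero]
  · have h1 := hre ⟨1, one_mem M⟩
    simpa using h1
  · refine ext_inner_right ℂ fun v => ?_
    rw [hadj, hadj]
    have h1 : (innerSL ℂ ξ) ∘L r = (innerSL ℂ ξ) ∘L w := by
      ext v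
      obtain ⟨a, ha, b, hb, rfl⟩ := Submodule.exists_add_mem_mem_orthogonal (K := K) v
      have h3 : ∀ k ∈ K, ((innerSL ℂ ξ) ∘L r) k = ((innerSL ℂ ξ) ∘L w) k := by
        intro k hk
        have hcl : IsClosed {v : H | ((innerSL ℂ ξ) ∘L r) v = ((innerSL ℂ ξ) ∘L w) v} :=
          isClosed_eq (ContinuousLinearMap.continuous _) (ContinuousLinearMap.continuous _)
        have hsub : (LinearMap.range e : Set H) ⊆
            {v : H | ((innerSL ℂ ξ) ∘L r) v = ((innerSL ℂ ξ) ∘L w) v} := by
          rintro _ ⟨y, rfl⟩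
          show inner ℂ ξ (r (y.1 ξ)) = inner ℂ ξ (w (y.1 ξ))
          rw [hre y]
          exact hM.tracial y.1 (hA y) w hw
        have hk' : k ∈ closure (LinearMap.range e : Set H) := by
          rwa [← Submodule.topologicalClosure_coe, SetLike.mem_coe]
        exact (closure_minimal hsub hcl) hk'
      rw [map_add, map_add, h3 a ha]
      congr 1
      show inner ℂ ξ (r b) = inner ℂ ξ (w b)
      rw [hrp b hb, inner_zero_right, ← hadj w]
      exact (hort b hb (star w) hsw).symm
    exact congrArg (fun T : H →L[ℂ] ℂ => T v) h1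

end

end Pool.Agent.N664.QWP
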